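import Pool.Agent.W872.CC.Prec

/-!
# Countable forcing notions preserve cardinals and the continuum hypothesis
-/

namespace Pool.Agent.W872.CC

open Cardinal Pool.Agent.Helper669.Forcing

section

variable {P : Type} [Preorder P]

theorem cardinalsPreserved [Countable P] (p : P) : p ∈ CardinalsPreserved.{0, 0} P := by
  intro μ ν hμν hν q hq hmem
  obtain ⟨r, hr, R, hfun, honto⟩ := mem_fex.1 hmem q le_rfl
  have h1 : ∀ y : ν.out, ∃ s ≤ r, ∃ x, s ∈ meets (R x y) := fun y => mem_fex.1 (honto y) r le_rfl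
  choose s hs x hx using h1
  have hinj : Function.Injective fun y => (s y, x y) := by
    intro y y' h
    simp only [Prod.mk.injEq] at h
    have h2 := hx y'
    rw [← h.1, ← h.2] at h2
    exact IsFun.unique (down_IsFun _ _ hfun _ (hs y)) (hx y) h2
  have h2 := mk_le_of_injective hinj
  rw [mk_prod, lift_id, lift_id, mk_out, mk_out] at h2
  refine absurd h2 (not_le_of_gt ?_)
  refine mul_lt_of_lt hν.le (lt_of_le_of_lt mk_le_aleph0 hν) hμν

/-- correct a name so that it is a name for a function -/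
def fix (x : ℕ → ℕ → Set P) : ℕ → ℕ → Set P := fun n a =>
  {p | p ∈ IsFun x ∧ p ∈ meets (x n a)} ∪ {p | p ∈ fnot (IsFun x) ∧ a = 0}

theorem isFun_fix (x : ℕ → ℕ → Set P) (p : P) : p ∈ IsFun (fix x) := by
  refine ⟨fun n => mem_fex.2 fun q hq => ?_, fun n a b => mem_fimp.2 fun q hq h => ?_⟩
  · by_cases h : ∃ r ≤ q, r ∈ IsFun x
    · obtain ⟨r, hr, h1⟩ := h
      obtain ⟨s, hs, a, h2⟩ := IsFun.total h1 n
      exact ⟨s, hs.trans hr, a, meets_of_mem (Or.inl ⟨down_IsFun _ _ h1 _ hs, h2⟩)⟩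
    · push Not at h
      exact ⟨q, le_rfl, 0, meets_of_mem (Or.inr ⟨h, rfl⟩)⟩
  · refine ⟨q, le_rfl, ?_⟩
    obtain ⟨r, hr, s, hs, hrs⟩ := h.1 q le_rfl
    obtain ⟨t, ht, s', hs', hts⟩ := h.2 r hr
    rcases hs with ⟨h1, h2⟩ | ⟨h1, h2⟩ <;> rcases hs' with ⟨h3, h4⟩ | ⟨h3, h4⟩
    · exact IsFun.unique (down_IsFun _ _ h1 _ (ht.trans hrs))
        (down_meets _ _ h2 _ (ht.trans hrs)) (down_meets _ _ h4 _ hts)
    · exact absurd (down_IsFun _ _ h1 _ (ht.trans hrs)) (h3 t hts)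
    · exact absurd (down_IsFun _ _ h3 _ hts) (h1 t (ht.trans hrs))
    · exact h2.trans h4.symm

theorem same_fix {x : ℕ → ℕ → Set P} {p : P} (h : p ∈ IsFun x) : p ∈ SameReal x (fix x) := by
  intro n a b
  refine mem_fimp.2 fun q hq h' => ⟨q, le_rfl, ?_⟩
  obtain ⟨r, hr, s, hs, hrs⟩ := h'.2 q le_rfl
  have h1 : r ∈ IsFun x := down_IsFun _ _ h _ (hr.trans hq)
  rcases hs with ⟨h2, h3⟩ | ⟨h2, h3⟩
  · exact IsFun.unique h1 (down_meets _ _ h'.1 _ hr) (down_meets _ _ h3 _ hrs)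
  · exact absurd h1 (h2 r hrs)

theorem mk_names [Countable P] : #(ℕ → ℕ → Set P) ≤ 𝔠 := by
  rw [← power_def, ← power_def, mk_set, mk_nat]
  have h : (2 : Cardinal.{0}) ^ #P ≤ 𝔠 := by
    rw [← two_power_aleph0]
    exact power_le_power_left two_ne_zero mk_le_aleph0
  have h2 : ((2 : Cardinal.{0}) ^ #P) ^ ℵ₀ ≤ 𝔠 := by
    refine (power_le_power_right h).trans ?_
    rw [continuum_power_aleph0]
  refine (power_le_power_right h2).trans ?_
  rw [continuum_power_aleph0]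

theorem continuumLe [Countable P] (hCH : (𝔠 : Cardinal.{0}) = ℵ_ 1) (p : P) : p ∈ ContinuumLe P W1 := by
  have h1 : #(ℕ → ℕ → Set P) ≤ #W1 := by
    rw [mk_W1, ← hCH]
    exact mk_names
  obtain ⟨g⟩ := h1
  refine mem_fex_of_mem (fun y => fix (Function.invFun g y)) ?_ ⟨fun y => isFun_fix _ p, fun x => ?_⟩
  · exact down_fand (down_fall fun _ => down_IsFun _) (down_fall fun _ => down_fimp _ _)
  · refine mem_fimp.2 fun q hq hx => ⟨q, le_rfl, mem_fex_of_mem (g x) (down_SameReal _ _) ?_⟩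
    change q ∈ SameReal x (fix (Function.invFun g (g x)))
    rw [Function.leftInverse_invFun g.injective x]
    exact same_fix hx

end

end Pool.Agent.W872.CC
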