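import Mathlib
import Pool.Agent.Helper669.Forcing

/-!
# Precipitous ideals and the cut and choose game in a generic extension

The forcing relation is the one of `Pool.Agent.Helper669.Forcing`: a sentence of the forcing
language is the set of the conditions which force it, and a name for a subset of a ground model
set `K` is a map `K → Set P`.
-/

namespace Pool.Agent.W872.CC

open Cardinal Pool.Agent.Helper669.Forcing

/-- A set of cardinality `ℵ₁`. -/
abbrev W1 : Type := (ℵ_ 1 : Cardinal.{0}).out

/-- `I` is a proper ideal on `K` which contains every singleton and is closed under unions of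
`ℵ₁` many sets. If `K` has cardinality `ℵ₂`, these are the ideals on `ω₂`. -/
structure IsIdeal {K : Type} (I : Set (Set K)) : Prop where
  proper : Set.univ ∉ I
  mono : ∀ A ∈ I, ∀ B ⊆ A, B ∈ I
  singleton : ∀ a : K, {a} ∈ I
  complete : ∀ A : W1 → Set K, (∀ i, A i ∈ I) → (⋃ i, A i) ∈ I

/-- The forcing notion `P(K)/I`: the sets which do not belong to `I`, ordered by inclusion. -/
def Pos {K : Type} (I : Set (Set K)) : Type := {X : Set K // X ∉ I}

instance {K : Type} (I : Set (Set K)) : Preorder (Pos I) where
  le X Y := X.1 ⊆ Y.1
  le_refl X := Set.Subset.refl X.1
  le_trans _ _ _ h h' := Set.Subset.trans h h'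

/-- `[g] < [f]` holds in the generic ultrapower by the generic filter `H`: some `X ∈ H` is
contained in `{a | g a < f a}`. -/
def UltLt {K : Type} (I : Set (Set K)) (g f : K → Ordinal.{0}) : Set (Pos I) :=
  meets {X : Pos I | ∀ a ∈ X.1, g a < f a}

/-- The ordinals of the generic ultrapower of the ground model are well-founded: every nonempty
set of elements `[f]`, where `f` is a function from `K` to the ordinals in the ground model,
has a minimal element. A name for such a set attaches conditions to the functions `f`. -/
def UltWF {K : Type} (I : Set (Set K)) : Set (Pos I) :=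
  fall fun E : (K → Ordinal.{0}) → Set (Pos I) =>
    fimp (fex fun f => meets (E f))
      (fex fun f => fand (meets (E f))
        (fall fun g => fimp (meets (E g)) (fnot (UltLt I g f))))

/-- `I` is precipitous: the forcing notion `P(K)/I` forces that the generic ultrapower is
well-founded. -/
def Precipitous {K : Type} (I : Set (Set K)) : Prop := ∀ X : Pos I, X ∈ UltWF I

section

variable {P : Type} [Preorder P] {K : Type}

/-- `φ` if and only if `ψ`. -/
def fiff (φ ψ : Set P) : Set P := fand (fimp φ ψ) (fimp ψ φ)

/-- The set named by `S` is contained in the set named by `T`. -/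
def SubSet (S T : K → Set P) : Set P := fall fun a => fimp (meets (S a)) (meets (T a))

/-- The sets named by `S` and `T` are equal. -/
def SameSet (S T : K → Set P) : Set P := fall fun a => fiff (meets (S a)) (meets (T a))

/-- The name of a set of the ground model. -/
def chk (P : Type) (A : Set K) : K → Set P := fun a => {_p | a ∈ A}

/-! ### The ideal generated by `I` in the extension -/

/-- The set named by `S` belongs to the ideal generated by `I` in the extension:
it is contained in a set `A ∈ I`. -/
def InGen (I : Set (Set K)) (S : K → Set P) : Set P :=
  fex fun A : {A : Set K // A ∈ I} => SubSet S (chk P A.1)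

/-- In the extension, the ideal generated by `I` is a proper ideal which contains every singleton
and is closed under unions of `ℵ₁` many sets. -/
def GenIsIdeal (P : Type) [Preorder P] (I : Set (Set K)) : Set P :=
  fand (fnot (InGen I (chk P Set.univ)))
    (fand (fall fun S : K → Set P => fall fun T : K → Set P =>
        fimp (fand (InGen I T) (SubSet S T)) (InGen I S))
      (fand (fall fun a : K => InGen I (chk P {a}))
        (fall fun S : W1 → K → Set P =>
          fimp (fall fun i => InGen I (S i)) (InGen I fun a => ⋃ i, S i a))))

/-- The two step iteration `P * P(K)/J`, where `J` is the ideal generated by `I` in the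
extension by `P`. A condition consists of `p : P` and a name for a subset of `K` which `p`
forces not to belong to `J`. -/
structure Two (P : Type) [Preorder P] {K : Type} (I : Set (Set K)) : Type where
  cond : P
  set : K → Set P
  pos : cond ∈ fnot (InGen I set)

theorem mem_SubSet {S T : K → Set P} {p : P} :
    p ∈ SubSet S T ↔ ∀ a, ∀ q ≤ p, q ∈ meets (S a) → q ∈ meets (T a) := by
  constructor
  · intro h a q hq hS q' hq'
    obtain ⟨r, hr, hT⟩ := mem_fimp.1 (h a) q' (hq'.trans hq) (down_meets _ _ hS _ hq')
    obtain ⟨t, ht, s, hs, hts⟩ := hT r le_rfl
    exact ⟨t, ht.trans hr, s, hs, hts⟩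
  · intro h a
    exact mem_fimp.2 fun q hq hS => ⟨q, le_rfl, h a q hq hS⟩

/-- `(q, T) ≤ (p, S)` if `q ≤ p` and `q` forces `T ⊆ S`. -/
instance (I : Set (Set K)) : Preorder (Two P I) where
  le z w := z.cond ≤ w.cond ∧ z.cond ∈ SubSet z.set w.set
  le_refl z := ⟨le_rfl, mem_SubSet.2 fun _ _ _ h => h⟩
  le_trans x y z h h' := ⟨h.1.trans h'.1, mem_SubSet.2 fun a q hq hx =>
    mem_SubSet.1 h'.2 a q (hq.trans h.1) (mem_SubSet.1 h.2 a q hq hx)⟩

/-- Names for functions from `K` to the ordinals in the extension by `P`. -/
def FunName (P : Type) [Preorder P] (K : Type) : Type 1 :=
  {F : K → Ordinal.{0} → Set P // ∀ p : P, p ∈ IsFun F}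

/-- In the extension by `P`, the function named by `G` is smaller than the one named by `F`
at the point `a`. -/
def LtAt (G F : FunName P K) (a : K) : Set P :=
  fall fun x : Ordinal.{0} => fall fun y : Ordinal.{0} =>
    fimp (fand (meets (G.1 a x)) (meets (F.1 a y))) (fground (x < y))

/-- `[G] < [F]` holds in the generic ultrapower of the extension by `P`: some set which belongs
to the generic filter of `P(K)/J` is contained in `{a | G a < F a}`. -/
def GenUltLt (I : Set (Set K)) (G F : FunName P K) : Set (Two P I) :=
  meets {z : Two P I | z.cond ∈ fall fun a => fimp (meets (z.set a)) (LtAt G F a)}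

/-- The ordinals of the generic ultrapower of the extension by `P` are well-founded. -/
def GenUltWF (P : Type) [Preorder P] (I : Set (Set K)) : Set (Two P I) :=
  fall fun E : FunName P K → Set (Two P I) =>
    fimp (fex fun F => meets (E F))
      (fex fun F => fand (meets (E F))
        (fall fun G => fimp (meets (E G)) (fnot (GenUltLt I G F))))

/-- All conditions of `P` force that the ideal `J` generated by `I` in the extension is
precipitous: all conditions of `P * P(K)/J` force that the generic ultrapower of the extension
by `P` is well-founded. -/
def GenPrecipitous (P : Type) [Preorder P] (I : Set (Set K)) : Prop :=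
  ∀ z : Two P I, z ∈ GenUltWF P I

/-! ### The game of length `ω`

A move of Cut is a set `A ⊆ K`, which splits the current set `D` into `D ∩ A` and `D \ A`.
A strategy of Choose is a set of finite sequences of subsets of `K`: Choose answers to the moves
`A₀, …, Aₙ` of Cut with `D ∩ Aₙ` if this sequence belongs to the strategy, and with `D \ Aₙ`
otherwise. Finite sequences are lists whose head is the last entry. -/

/-- The sequences named by `l` and `l'` are equal. -/
def SameSeq (l l' : List (K → Set P)) : Set P :=
  {p | List.Forall₂ (fun S T => p ∈ SameSet S T) l l'}

/-- The sequence named by `l` belongs to the set of sequences named by `σ`. -/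
def Keeps (σ : List (K → Set P) → Set P) (l : List (K → Set P)) : Set P :=
  fex fun l' : List (K → Set P) => fand (meets (σ l')) (SameSeq l' l)

/-- The first `n` entries of the sequence `A`, the last one of them is the head. -/
def hist {α : Type*} (A : ℕ → α) : ℕ → List α
  | 0 => []
  | n + 1 => A n :: hist A n

/-- The point `a` belongs to the current set after the first `n` rounds of the run in which Cut
plays the sets named by `A` and Choose plays by the strategy named by `σ`. -/
def InCur (σ : List (K → Set P) → Set P) (A : ℕ → K → Set P) (n : ℕ) (a : K) : Set P :=
  fall fun i : ℕ => fall fun _ : i < n => fiff (meets (A i a)) (Keeps σ (hist A (i + 1)))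

/-- Choose wins this run of the game `U(K, ω)`: the intersection has at least two elements. -/
def ChooseWins (σ : List (K → Set P) → Set P) (A : ℕ → K → Set P) : Set P :=
  fex fun a : K => fex fun b : K => fand (fground (a ≠ b))
    (fall fun n => fand (InCur σ A n a) (InCur σ A n b))

/-- Choose wins this run of the game `U(K, ≤ω)`: all current sets have at least two elements and
the intersection is nonempty. -/
def ChooseWinsLe (σ : List (K → Set P) → Set P) (A : ℕ → K → Set P) : Set P :=
  fand (fall fun n => fex fun a : K => fex fun b : K => fand (fground (a ≠ b))
      (fand (InCur σ A n a) (InCur σ A n b)))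
    (fex fun a : K => fall fun n => InCur σ A n a)

/-- Choose has a winning strategy in the game `U(K, ω)` of the extension. -/
def ChooseHasStrategy (P : Type) [Preorder P] (K : Type) : Set P :=
  fex fun σ : List (K → Set P) → Set P => fall fun A : ℕ → K → Set P => ChooseWins σ A

/-- Choose has a winning strategy in the game `U(K, ≤ω)` of the extension. -/
def ChooseHasStrategyLe (P : Type) [Preorder P] (K : Type) : Set P :=
  fex fun σ : List (K → Set P) → Set P => fall fun A : ℕ → K → Set P => ChooseWinsLe σ A

end

/-- Cohen forcing: finite sequences of bits, a longer sequence is a stronger condition. (The head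
of the list is the last entry of the sequence.) -/
structure Coh : Type where
  bits : List Bool

instance : Preorder Coh where
  le s t := t.bits <:+ s.bits
  le_refl s := List.suffix_refl _
  le_trans _ _ _ h h' := List.IsSuffix.trans h' h

instance : Countable Coh :=
  Function.Injective.countable (f := Coh.bits) fun s t h => by cases s; cases t; exact congrArg _ h

instance : Nonempty Coh := ⟨⟨[]⟩⟩

end Pool.Agent.W872.CC
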