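import Pool.Agent.W872.CC.Ult

/-!
# Countable forcing notions preserve precipitous ideals on `ω₂`
-/

namespace Pool.Agent.W872.CC

open Cardinal Pool.Agent.Helper669.Forcing

section

variable {P : Type} [Preorder P] {K : Type} {I : Set (Set K)}

theorem IsIdeal.iUnion_mem (hI : IsIdeal I) {ι : Type} [Nonempty ι] (hι : #ι ≤ ℵ_ 1)
    (A : ι → Set K) (hA : ∀ i, A i ∈ I) : (⋃ i, A i) ∈ I := by
  have h : #ι ≤ #W1 := by rwa [mk_W1]
  obtain ⟨g⟩ := h
  have h1 := hI.complete (fun w => A (Function.invFun g w)) (fun w => hA _)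
  refine hI.mono _ h1 _ (Set.iUnion_subset fun i => ?_)
  intro x hx
  refine Set.mem_iUnion.2 ⟨g i, ?_⟩
  rw [Function.leftInverse_invFun g.injective i]
  exact hx

theorem IsIdeal.iUnion_countable (hI : IsIdeal I) {ι : Type} [Nonempty ι] [Countable ι]
    (A : ι → Set K) (hA : ∀ i, A i ∈ I) : (⋃ i, A i) ∈ I :=
  hI.iUnion_mem (mk_le_aleph0.trans (aleph0_le_aleph 1)) A hA

theorem IsIdeal.empty_mem (hI : IsIdeal I) [Nonempty K] : ∅ ∈ I :=
  hI.mono _ (hI.singleton (Classical.arbitrary K)) _ (Set.empty_subset _)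

/-- the points which `q` forces to belong to the set named by `S` -/
def known (q : P) (S : K → Set P) : Set K := {a | q ∈ meets (S a)}

theorem mem_InGen (hI : IsIdeal I) [Countable P] [Nonempty P] {S : K → Set P} {p : P} :
    p ∈ InGen I S ↔ ∀ q ≤ p, known q S ∈ I := by
  constructor
  · intro h q hq
    obtain ⟨r, hr, A, hA⟩ := mem_fex.1 h q hq
    refine hI.mono _ A.2 _ fun a ha => ?_
    exact mem_meets_chk.1 (mem_SubSet.1 hA a r le_rfl (down_meets _ _ ha _ hr))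
  · intro h
    have hU : (⋃ r : P, {a | r ≤ p ∧ a ∈ known r S}) ∈ I := by
      refine hI.iUnion_countable _ fun r => ?_
      by_cases hr : r ≤ p
      · exact hI.mono _ (h r hr) _ fun a ha => ha.2
      · exact hI.mono _ (h p le_rfl) _ fun a ha => absurd ha.1 hr
    refine mem_fex.2 fun q hq => ⟨q, le_rfl, ⟨_, hU⟩, mem_SubSet.2 fun a r hr hS => ?_⟩
    exact mem_meets_chk.2 (Set.mem_iUnion.2 ⟨r, hr.trans hq, hS⟩)

theorem exists_known (hI : IsIdeal I) [Countable P] [Nonempty P] {S : K → Set P} {p : P}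
    (h : p ∈ fnot (InGen I S)) : ∃ q ≤ p, known q S ∉ I := by
  by_contra hcon
  push Not at hcon
  exact h p le_rfl ((mem_InGen hI).2 hcon)

theorem known_chk {A : Set K} {q : P} : known q (chk P A) = A := by
  ext a
  exact mem_meets_chk

/-- a condition of the iteration whose second coordinate is a positive set of the ground model -/
def mkTwo (hI : IsIdeal I) [Countable P] [Nonempty P] (q : P) (Z : Set K) (hZ : Z ∉ I) :
    Two P I :=
  ⟨q, chk P Z, fun r _ hr => hZ (by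
    have := (mem_InGen hI).1 hr r le_rfl
    rwa [known_chk] at this)⟩

theorem mkTwo_le (hI : IsIdeal I) [Countable P] [Nonempty P] {q : P} {Z : Set K} (hZ : Z ∉ I)
    {z : Two P I} (hq : q ≤ z.cond) (h : ∀ a ∈ Z, q ∈ meets (z.set a)) :
    mkTwo hI q Z hZ ≤ z :=
  ⟨hq, mem_SubSet.2 fun a _ hr ha => down_meets _ _ (h a (mem_meets_chk.1 ha)) _ hr⟩

/-- below every condition of the iteration there is a positive set of the ground model on which
a given function is a function of the ground model -/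
theorem reduce (hI : IsIdeal I) [Countable P] [Nonempty P] [Nonempty K] (z : Two P I) (F : FunName P K) :
    ∃ q ≤ z.cond, ∃ Z ∉ I, ∃ f : K → Ordinal.{0}, (∀ a ∈ Z, q ∈ meets (z.set a)) ∧
      ∀ a ∈ Z, q ∈ meets (F.1 a (f a)) := by
  obtain ⟨q, hq, hpos⟩ := exists_known hI z.pos
  have h1 : ∀ a, ∃ r ≤ q, ∃ x, r ∈ meets (F.1 a x) := fun a => IsFun.total (F.2 q) a
  choose r hr f hf using h1
  have h2 : ∃ s : P, {a | a ∈ known q z.set ∧ r a = s} ∉ I := by
    by_contra hcon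
    push Not at hcon
    apply hpos
    refine hI.mono _ (hI.iUnion_countable _ hcon) _ fun a ha => ?_
    exact Set.mem_iUnion.2 ⟨r a, ha, rfl⟩
  obtain ⟨s, hs⟩ := h2
  have hne : ({a | a ∈ known q z.set ∧ r a = s} : Set K).Nonempty := by
    by_contra h
    rw [Set.not_nonempty_iff_eq_empty] at h
    rw [h] at hs
    exact hs hI.empty_mem
  obtain ⟨a₀, ha₀⟩ := hne
  have hsq : s ≤ q := ha₀.2 ▸ hr a₀
  refine ⟨s, hsq.trans hq, _, hs, f, fun a ha => down_meets _ _ ha.1 _ hsq, fun a ha => ?_⟩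
  have := hf a
  rwa [ha.2] at this

theorem genPrecipitous (hI : IsIdeal I) [Countable P] [Nonempty P] [Nonempty K]
    (hp : Precipitous I) : GenPrecipitous P I := by
  intro z₀ E
  refine mem_fimp.2 fun x hx hne => ?_
  by_contra hcon
  push Not at hcon
  -- below `x` no element is minimal
  have hmin : ∀ z ≤ x, ∀ F : FunName P K, z ∈ meets (E F) →
      ∃ w ≤ z, ∃ G, w ∈ meets (E G) ∧ w ∈ GenUltLt I G F := by
    intro z hz F hF
    by_contra hc
    push Not at hc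
    refine hcon z hz (mem_fex.2 fun w hw => ⟨w, le_rfl, F, down_meets _ _ hF _ hw, fun G => ?_⟩)
    refine mem_fimp.2 fun u hu hG => ⟨u, le_rfl, fun v hv hlt => ?_⟩
    exact hc v (hv.trans (hu.trans hw)) G (down_meets _ _ hG _ hv) hlt
  -- the set of functions of the ground model
  let B : (K → Ordinal.{0}) → Set (Pos I) := fun f => {Z | ∃ z ≤ x, ∃ F : FunName P K,
    z ∈ meets (E F) ∧ (∀ a ∈ Z.1, z.cond ∈ meets (z.set a)) ∧
      ∀ a ∈ Z.1, z.cond ∈ meets (F.1 a (f a))}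
  have hB : ∀ z ≤ x, ∀ F : FunName P K, z ∈ meets (E F) → ∃ (Z : Pos I) (f : K → Ordinal.{0}),
      Z ∈ B f ∧ ∃ q ≤ z.cond, (∀ a ∈ Z.1, q ∈ meets (z.set a)) ∧
        ∀ a ∈ Z.1, q ∈ meets (F.1 a (f a)) := by
    intro z hz F hF
    obtain ⟨q, hq, Z, hZ, f, h1, h2⟩ := reduce hI z F
    have hle := mkTwo_le hI hZ hq h1
    exact ⟨⟨Z, hZ⟩, f, ⟨mkTwo hI q Z hZ, hle.trans hz, F, down_meets _ _ hF _ hle,
      fun a ha => mem_meets_chk.2 ha, h2⟩, q, hq, h1, h2⟩
  obtain ⟨x', hx', F₀, hF₀⟩ := mem_fex.1 hne x le_rfl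
  obtain ⟨Z₀, f₀, hZ₀, -⟩ := hB x' hx' F₀ hF₀
  have h1 : Z₀ ∈ fex fun f => meets (B f) := mem_fex_of_mem f₀ (down_meets _) (meets_of_mem hZ₀)
  obtain ⟨Z₁, hZ₁, h2⟩ := mem_fimp.1 (hp Z₀ B) Z₀ le_rfl h1
  obtain ⟨Z₂, hZ₂, f, h3, h4⟩ := mem_fex.1 h2 Z₁ le_rfl
  obtain ⟨Z₃, hZ₃, Z', ⟨z, hz, F, hF, hsub, hval⟩, hle⟩ := h3 Z₂ le_rfl
  -- the condition below `z` given by `Z₃`
  have h5 : mkTwo hI z.cond Z₃.1 Z₃.2 ≤ z :=
    mkTwo_le hI Z₃.2 le_rfl fun a ha => hsub a (hle ha)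
  obtain ⟨w, hw, G, hG, hlt⟩ := hmin _ (h5.trans hz) F (down_meets _ _ hF _ h5)
  obtain ⟨v, hv, u, hu, hvu⟩ := hlt w le_rfl
  have hvx : v ≤ x := hv.trans (hw.trans (h5.trans hz))
  obtain ⟨Z₄, g, hB4, q, hq, hsub4, hval4⟩ := hB v hvx G (down_meets _ _ hG _ hv)
  have h43 : Z₄ ≤ Z₃ := by
    intro a ha
    have h6 : q ∈ meets (v.set a) := hsub4 a ha
    have h7 := mem_SubSet.1 (hv.trans hw).2 a q hq h6
    exact mem_meets_chk.1 h7
  obtain ⟨Z₅, hZ₅, h6⟩ := mem_fimp.1 (h4 g) Z₄ (h43.trans hZ₃) (meets_of_mem hB4)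
  refine h6 Z₅ le_rfl (meets_of_mem ?_)
  intro a ha
  have ha4 : a ∈ Z₄.1 := hZ₅ ha
  have ha3 : a ∈ Z₃.1 := h43 ha4
  have h7 : q ∈ meets (F.1 a (f a)) :=
    down_meets _ _ (hval a (hle ha3)) _ (hq.trans ((hv.trans hw).1.trans le_rfl))
  have h8 : q ∈ meets (u.set a) := mem_SubSet.1 hvu.2 a q hq (hsub4 a ha4)
  obtain ⟨r, hr, h9⟩ := mem_fimp.1 (hu a) q (hq.trans hvu.1) h8
  obtain ⟨s, _, h10⟩ := mem_fimp.1 (h9 (g a) (f a)) r le_rfl
    ⟨down_meets _ _ (hval4 a ha4) _ hr, down_meets _ _ h7 _ hr⟩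
  exact h10

theorem genIsIdeal (hI : IsIdeal I) [Countable P] [Nonempty P] (p : P) : p ∈ GenIsIdeal P I := by
  refine ⟨fun q _ hq => ?_, fun S T => mem_fimp.2 fun q _ hq => ⟨q, le_rfl, ?_⟩, fun a => ?_,
    fun S => mem_fimp.2 fun q _ hq => ⟨q, le_rfl, ?_⟩⟩
  · have := (mem_InGen hI).1 hq q le_rfl
    rw [known_chk] at this
    exact hI.proper this
  · refine (mem_InGen hI).2 fun r hr => ?_
    refine hI.mono _ ((mem_InGen hI).1 hq.1 r hr) _ fun a ha => ?_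
    exact mem_SubSet.1 hq.2 a r hr ha
  · refine (mem_InGen hI).2 fun r _ => ?_
    rw [known_chk]
    exact hI.singleton a
  · refine (mem_InGen hI).2 fun r hr => ?_
    -- the union over all conditions below `q` and all indices
    have h1 : (⋃ x : P × W1, {a | x.1 ≤ q ∧ a ∈ known x.1 (S x.2)}) ∈ I := by
      have hW : Nonempty W1 := by
        rw [← mk_ne_zero_iff, mk_W1]
        exact (aleph_pos 1).ne'
      refine hI.iUnion_mem ?_ _ ?_
      · rw [mk_prod, lift_id, lift_id, mk_W1]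
        exact mul_le_of_le (aleph0_le_aleph 1) (mk_le_aleph0.trans (aleph0_le_aleph 1)) le_rfl
      · rintro ⟨s, i⟩
        by_cases hs : s ≤ q
        · exact hI.mono _ ((mem_InGen hI).1 (hq i) s hs) _ fun a ha => ha.2
        · exact hI.mono _ ((mem_InGen hI).1 (hq i) q le_rfl) _ fun a ha => absurd ha.1 hs
    refine hI.mono _ h1 _ fun a ha => ?_
    obtain ⟨t, ht, s, hs, hts⟩ := ha r le_rfl
    obtain ⟨i, hi⟩ := Set.mem_iUnion.1 hs
    exact Set.mem_iUnion.2 ⟨(t, i), ht.trans hr, meets_of_le hi hts⟩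

end

end Pool.Agent.W872.CC
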