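import Pool.Agent.W872.CC.Core

/-!
# The generic run
-/

namespace Pool.Agent.W872.CC

open Cardinal Pool.Agent.Helper669.Forcing

section

variable {K : Type} {σ : List (K → Set Coh) → Set Coh} {p₀ : Coh}

/-- the stronger condition with one more bit -/
def bit (b : Bool) (s : Coh) : Coh := ⟨b :: s.bits⟩

theorem bit_le (b : Bool) (s : Coh) : bit b s ≤ s := List.suffix_cons b s.bits

/-- a state: the current list of cuts, and possibly a target -/
abbrev State (K : Type) := List (Set K) × Option (Coh × List (Set K))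

open Classical in
/-- the new state -/
noncomputable def settle (s : Coh) (l : List (Set K)) (t : Coh × List (Set K)) : State K :=
  if t.1 = s then (t.2, none) else if t.1 ≤ s then (l, some t) else (l, none)

/-- the extensions chosen for a position -/
def Good (σ : List (K → Set Coh) → Set Coh) (s : Coh) (l : List (Set K))
    (f : Bool → Coh × List (Set K)) : Prop :=
  (∀ b, (f b).1 ≤ bit b s ∧ l <:+ (f b).2 ∧ Ok σ (f b).1 (f b).2) ∧
    Disjoint (cur σ (f false).1 (f false).2) (cur σ (f true).1 (f true).2)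

theorem exists_good (hw : ∀ A, p₀ ∈ ChooseWinsLe σ A) (hno : NoUlt K) (s : Coh)
    (l : List (Set K)) : ∃ f, s ≤ p₀ → Ok σ s l → Good σ s l f := by
  by_cases h : s ≤ p₀ ∧ Ok σ s l
  · obtain ⟨u, hu, v, hv, l₁, l₂, h1, h2, ho1, ho2, hd⟩ :=
      split_two hw hno h.1 h.2 (bit_le false s) (bit_le true s)
    refine ⟨fun b => if b then (v, l₂) else (u, l₁), fun _ _ => ⟨fun b => ?_, ?_⟩⟩
    · cases b
      · exact ⟨hu, h1, ho1⟩
      · exact ⟨hv, h2, ho2⟩
    · exact hd
  · exact ⟨fun _ => (s, l), fun h1 h2 => absurd ⟨h1, h2⟩ h⟩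

open Classical in
/-- the state at a condition -/
noncomputable def stl (p₀ : Coh) (nxt : Coh → List (Set K) → Bool → Coh × List (Set K)) :
    List Bool → State K
  | [] => ([], none)
  | b :: s => if (⟨s⟩ : Coh) ≤ p₀ then
      settle (bit b ⟨s⟩) (stl p₀ nxt s).1 ((stl p₀ nxt s).2.getD (nxt ⟨s⟩ (stl p₀ nxt s).1 b))
      else ([], none)

/-- the state at a condition -/
noncomputable def st (p₀ : Coh) (nxt : Coh → List (Set K) → Bool → Coh × List (Set K))
    (s : Coh) : State K := stl p₀ nxt s.bits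

variable (nxt : Coh → List (Set K) → Bool → Coh × List (Set K))

theorem st_bit (s : Coh) (hs : s ≤ p₀) (b : Bool) :
    st p₀ nxt (bit b s) =
      settle (bit b s) (st p₀ nxt s).1 ((st p₀ nxt s).2.getD (nxt s (st p₀ nxt s).1 b)) :=
  if_pos hs

theorem st_bit' (s : Coh) (hs : ¬ s ≤ p₀) (b : Bool) : st p₀ nxt (bit b s) = ([], none) :=
  if_neg hs

/-- the invariant -/
def Inv (σ : List (K → Set Coh) → Set Coh) (s : Coh) (z : State K) : Prop :=
  Ok σ s z.1 ∧ ∀ t, z.2 = some t → t.1 ≤ s ∧ t.1 ≠ s ∧ z.1 <:+ t.2 ∧ Ok σ t.1 t.2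

theorem settle_suffix {s : Coh} {l : List (Set K)} {t : Coh × List (Set K)} (h : l <:+ t.2) :
    l <:+ (settle s l t).1 := by
  unfold settle
  split_ifs
  · exact h
  · exact List.suffix_refl _
  · exact List.suffix_refl _

theorem settle_inv {s : Coh} {l : List (Set K)} {t : Coh × List (Set K)} (h : l <:+ t.2)
    (hs : Ok σ s l) (ht : Ok σ t.1 t.2) : Inv σ s (settle s l t) := by
  unfold settle
  split_ifs with h1 h2
  · subst h1
    exact ⟨ht, fun t' h' => by simp at h'⟩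
  · refine ⟨hs, fun t' h' => ?_⟩
    obtain rfl : t = t' := by simpa using h'
    exact ⟨h2, h1, h, ht⟩
  · exact ⟨hs, fun t' h' => by simp at h'⟩

variable {nxt}

/-- the target which is used -/
theorem target_ok (hn : ∀ s l, s ≤ p₀ → Ok σ s l → Good σ s l (nxt s l)) {s : Coh} (hs : s ≤ p₀)
    {z : State K} (hz : Inv σ s z) (b : Bool) :
    z.1 <:+ (z.2.getD (nxt s z.1 b)).2 ∧
      Ok σ (z.2.getD (nxt s z.1 b)).1 (z.2.getD (nxt s z.1 b)).2 := by
  obtain ⟨l, o⟩ := z
  cases o with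
  | none =>
    obtain ⟨h1, h2, h3⟩ := (hn s l hs hz.1).1 b
    exact ⟨h2, h3⟩
  | some t => exact (hz.2 t rfl).2.2

theorem inv_st (hn : ∀ s l, s ≤ p₀ → Ok σ s l → Good σ s l (nxt s l)) (s : Coh) (hs : s ≤ p₀) :
    Inv σ s (st p₀ nxt s) := by
  obtain ⟨s⟩ := s
  induction s with
  | nil =>
    exact ⟨trivial, fun t h => by simp [st, stl] at h⟩
  | cons b s ih =>
    by_cases h : (⟨s⟩ : Coh) ≤ p₀
    · have h1 := ih h
      have h2 := target_ok hn h h1 b
      change Inv σ (bit b ⟨s⟩) (st p₀ nxt (bit b ⟨s⟩))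
      rw [st_bit nxt ⟨s⟩ h b]
      exact settle_inv h2.1 (h1.1.mono (bit_le b ⟨s⟩)).1 h2.2
    · change Inv σ (bit b ⟨s⟩) (st p₀ nxt (bit b ⟨s⟩))
      rw [st_bit' nxt ⟨s⟩ h b]
      exact ⟨trivial, fun t h => by simp at h⟩

theorem suffix_st (hn : ∀ s l, s ≤ p₀ → Ok σ s l → Good σ s l (nxt s l)) {s t : Coh}
    (hs : s ≤ p₀) (ht : t ≤ s) : (st p₀ nxt s).1 <:+ (st p₀ nxt t).1 := by
  obtain ⟨t⟩ := t
  obtain ⟨w, hw⟩ := ht
  change w ++ s.bits = t at hw
  subst hw
  induction w with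
  | nil => exact List.suffix_refl _
  | cons b w ih =>
    refine ih.trans ?_
    have h : (⟨w ++ s.bits⟩ : Coh) ≤ p₀ := le_trans (show _ ≤ s from ⟨w, rfl⟩) hs
    have := (st_bit nxt ⟨w ++ s.bits⟩ h b)
    change _ <:+ (st p₀ nxt (bit b ⟨w ++ s.bits⟩)).1
    rw [this]
    exact settle_suffix (target_ok hn h (inv_st hn _ h) b).1

/-- following the target -/
theorem reach {t : Coh × List (Set K)} {l : List (Set K)} (w : List Bool) :
    ∀ s : Coh, s ≤ p₀ → t.1 = ⟨w ++ s.bits⟩ → st p₀ nxt s = settle s l t →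
      st p₀ nxt t.1 = (t.2, none) := by
  induction w using List.reverseRecOn with
  | nil =>
    intro s hs h1 h2
    have h3 : t.1 = s := h1
    rw [h3, h2, settle, if_pos h3]
  | append_singleton w c ih =>
    intro s hs h1 h2
    have h3 : t.1 ≠ s := by
      intro h
      rw [h] at h1
      have := congrArg (fun u : Coh => u.bits.length) h1
      simp at this
      omega
    have h4 : t.1 ≤ s := by
      rw [h1]
      exact ⟨w ++ [c], rfl⟩
    have h5 : st p₀ nxt s = (l, some t) := by rw [h2, settle, if_neg h3, if_pos h4]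
    refine ih (bit c s) ((bit_le c s).trans hs) ?_ ?_
    · rw [h1]
      simp [bit]
    · rw [st_bit nxt s hs, h5]
      rfl

theorem exists_not_mem_cur (hn : ∀ s l, s ≤ p₀ → Ok σ s l → Good σ s l (nxt s l)) {s : Coh}
    (hs : s ≤ p₀) (a : K) : ∃ t ≤ s, a ∉ cur σ t (st p₀ nxt t).1 := by
  have step1 : ∃ s₁ ≤ s, (st p₀ nxt s₁).2 = none := by
    have hi := inv_st hn s hs
    cases hz : (st p₀ nxt s).2 with
    | none => exact ⟨s, le_rfl, hz⟩
    | some t =>
      obtain ⟨h1, h2, h3, h4⟩ := hi.2 t hz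
      obtain ⟨w, hw⟩ := h1
      rcases List.eq_nil_or_concat w with rfl | ⟨w, c, rfl⟩
      · exact absurd (congrArg Coh.mk hw.symm) h2
      · refine ⟨bit (!c) s, bit_le _ _, ?_⟩
        rw [st_bit nxt s hs, hz]
        have h5 : ¬ t.1 ≤ bit (!c) s := by
          intro h
          have h6 : t.1 ≤ bit c s := ⟨w, by rw [← hw]; simp [bit]⟩
          have h7 := List.suffix_or_suffix_of_suffix h h6
          have h8 : (bit (!c) s).bits = (bit c s).bits := by
            rcases h7 with h7 | h7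
            · exact h7.eq_of_length rfl
            · exact (h7.eq_of_length rfl).symm
          have h9 := (List.cons.inj h8).1
          simp at h9
        have h6 : t.1 ≠ bit (!c) s := fun h => h5 (h ▸ le_rfl)
        change (settle (bit (!c) s) _ t).2 = none
        rw [settle, if_neg h6, if_neg h5]
  obtain ⟨s₁, hs₁, h1⟩ := step1
  have hs₁' := hs₁.trans hs
  have hi := inv_st hn s₁ hs₁'
  obtain ⟨h2, h3⟩ := hn s₁ _ hs₁' hi.1
  have h4 : ∀ b, st p₀ nxt (nxt s₁ (st p₀ nxt s₁).1 b).1 = ((nxt s₁ (st p₀ nxt s₁).1 b).2, none) := by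
    intro b
    obtain ⟨w, hw⟩ := (h2 b).1
    refine reach (l := (st p₀ nxt s₁).1) w (bit b s₁) ((bit_le b s₁).trans hs₁')
      (congrArg Coh.mk hw.symm) ?_
    rw [st_bit nxt s₁ hs₁', h1]
    rfl
  by_cases h5 : a ∈ cur σ (nxt s₁ (st p₀ nxt s₁).1 false).1 (nxt s₁ (st p₀ nxt s₁).1 false).2
  · refine ⟨_, (h2 true).1.trans ((bit_le _ _).trans hs₁), ?_⟩
    rw [h4]
    exact Set.disjoint_left.1 h3 h5
  · refine ⟨_, (h2 false).1.trans ((bit_le _ _).trans hs₁), ?_⟩
    rw [h4]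
    exact h5

/-- the name of the generic run -/
def grun (p₀ : Coh) (nxt : Coh → List (Set K) → Bool → Coh × List (Set K)) (n : ℕ) (a : K) :
    Set Coh :=
  {s | s ≤ p₀ ∧ ∃ B l, (B :: l) <:+ (st p₀ nxt s).1 ∧ l.length = n ∧ a ∈ B}

theorem match_grun (hn : ∀ s l, s ≤ p₀ → Ok σ s l → Good σ s l (nxt s l)) {s : Coh}
    (hs : s ≤ p₀) : ∀ l, l <:+ (st p₀ nxt s).1 → Match s (grun p₀ nxt) l := by
  intro l
  induction l with
  | nil => exact fun _ => trivial
  | cons B l ih =>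
    intro hl
    refine ⟨ih ((List.suffix_cons B l).trans hl), mem_SameSet.2 fun a q hq => ?_⟩
    rw [mem_meets_chk]
    constructor
    · intro h
      obtain ⟨r, hr, t, ⟨ht, B', l', h1, h2, h3⟩, hrt⟩ := h q le_rfl
      have h4 := h1.trans (suffix_st hn ht hrt)
      have h5 := hl.trans (suffix_st hn hs (hr.trans hq))
      have h6 : B :: l = B' :: l' := by
        rcases List.suffix_or_suffix_of_suffix h4 h5 with h7 | h7
        · exact (h7.eq_of_length (by simp [h2])).symm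
        · exact h7.eq_of_length (by simp [h2])
      rw [(List.cons.inj h6).1]
      exact h3
    · intro h
      exact meets_of_le (s := s) ⟨hs, B, l, hl, rfl, h⟩ hq

theorem no_strategyLe (hno : NoUlt K) (p : Coh) : p ∈ fnot (ChooseHasStrategyLe Coh K) := by
  intro q _ hmem
  obtain ⟨p₀, _, σ, hw⟩ := mem_fex.1 hmem q le_rfl
  have hw' : ∀ A, p₀ ∈ ChooseWinsLe σ A := hw
  choose nxt hn using exists_good hw' hno
  obtain ⟨r, hr, a, ha⟩ := mem_fex.1 (hw' (grun p₀ nxt)).2 p₀ le_rfl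
  obtain ⟨s, hs, hns⟩ := exists_not_mem_cur hn hr a
  refine hns (mem_cur (match_grun hn (hs.trans hr) _ (List.suffix_refl _)) ?_)
  exact down_InCur _ _ _ _ _ (ha _) _ hs

theorem chooseWinsLe_of_chooseWins {P : Type} [Preorder P] {σ : List (K → Set P) → Set P}
    {A : ℕ → K → Set P} {p : P} (h : p ∈ ChooseWins σ A) : p ∈ ChooseWinsLe σ A := by
  refine ⟨fun n => mem_fex.2 fun q hq => ?_, mem_fex.2 fun q hq => ?_⟩
  · obtain ⟨r, hr, a, h1⟩ := mem_fex.1 h q hq
    obtain ⟨t, ht, b, h2, h3⟩ := mem_fex.1 h1 r le_rfl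
    exact ⟨t, ht.trans hr, a, mem_fex.2 fun u hu => ⟨u, le_rfl, b, h2,
      down_InCur _ _ _ _ _ (h3 n).1 _ hu, down_InCur _ _ _ _ _ (h3 n).2 _ hu⟩⟩
  · obtain ⟨r, hr, a, h1⟩ := mem_fex.1 h q hq
    obtain ⟨t, ht, b, h2, h3⟩ := mem_fex.1 h1 r le_rfl
    exact ⟨t, ht.trans hr, a, fun n => (h3 n).1⟩

theorem no_strategy (hno : NoUlt K) (p : Coh) : p ∈ fnot (ChooseHasStrategy Coh K) := by
  intro q hq hmem
  refine no_strategyLe hno p q hq ?_
  refine mem_fex.2 fun r hr => ?_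
  obtain ⟨t, ht, σ, h⟩ := mem_fex.1 hmem r hr
  exact ⟨t, ht, σ, fun A => chooseWinsLe_of_chooseWins (h A)⟩

end

end Pool.Agent.W872.CC
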