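import Pool.Agent.W872.CC.Core

/-!
# There is no countably complete nonprincipal ultrafilter on a set of cardinality at most `ℵ₂`
-/

namespace Pool.Agent.W872.CC

open Cardinal

theorem mk_W1 : #W1 = ℵ_ 1 := Cardinal.mk_out _

theorem inj_W1 : ∃ g : W1 → Set ℕ, Function.Injective g := by
  have h : #W1 ≤ #(Set ℕ) := by
    rw [mk_W1, mk_set, mk_nat, ← Cardinal.continuum]
    exact aleph_one_le_continuum
  obtain ⟨g⟩ := h
  exact ⟨g, g.injective⟩

theorem inj_K {K : Type} (hK : #K ≤ ℵ_ 2) : ∃ g : K → Set W1, Function.Injective g := by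
  have h : #K ≤ #(Set W1) := by
    rw [mk_set, mk_W1]
    refine hK.trans ?_
    have h2 : (ℵ_ 2 : Cardinal.{0}) = Order.succ (ℵ_ 1) := by
      rw [succ_aleph, one_add_one_eq_two]
    rw [h2]
    exact Order.succ_le_of_lt (cantor _)
  obtain ⟨g⟩ := h
  exact ⟨g, g.injective⟩

theorem noUlt {K : Type} (hK : #K ≤ ℵ_ 2) : NoUlt K := by
  classical
  intro F hup hult hint h0
  by_contra hcon
  push Not at hcon
  have hinter : ∀ A ∈ F, ∀ B ∈ F, A ∩ B ∈ F := by
    intro A hA B hB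
    have := hint (fun n => if n = 0 then A else B) (fun n => by by_cases h : n = 0 <;> simp [h, hA, hB])
    refine hup _ this _ fun x hx => ?_
    rw [Set.mem_iInter] at hx
    have h1 := hx 0
    have h2 := hx 1
    simp only [if_true, one_ne_zero, if_false] at h1 h2
    exact ⟨h1, h2⟩
  have hne : ∀ A ∈ F, A.Nonempty := by
    intro A hA
    by_contra h
    rw [Set.not_nonempty_iff_eq_empty] at h
    exact h0 (h ▸ hA)
  have side : ∀ S : Set K, ∃ T ∈ F, ∀ x ∈ T, ∀ y ∈ T, (x ∈ S ↔ y ∈ S) := by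
    intro S
    rcases hult S with h | h
    · exact ⟨S, h, fun x hx y hy => ⟨fun _ => hy, fun _ => hx⟩⟩
    · exact ⟨Sᶜ, h, fun x hx y hy => ⟨fun h' => absurd h' hx, fun h' => absurd h' hy⟩⟩
  by_cases hc : ∀ Y : W1 → Set K, (∀ i, Y i ∈ F) → (⋂ i, Y i) ∈ F
  · obtain ⟨g, hg⟩ := inj_K hK
    choose Y hY hY' using fun i : W1 => side {x | i ∈ g x}
    have h1 := hc Y hY
    obtain ⟨a, ha⟩ := hne _ h1
    refine hcon a (hup _ h1 _ fun x hx => ?_)
    apply hg
    ext i
    exact hY' i x (Set.mem_iInter.1 hx i) a (Set.mem_iInter.1 ha i)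
  · push Not at hc
    obtain ⟨Y, hY, hYn⟩ := hc
    have h1 := (hult _).resolve_left hYn
    have h2 : ∀ x : K, ∃ i, x ∉ (⋂ i, Y i) → x ∉ Y i := by
      intro x
      by_cases hx : x ∈ ⋂ i, Y i
      · have : Nonempty W1 := by
          rw [← mk_ne_zero_iff, mk_W1]
          exact (aleph_pos 1).ne'
        exact ⟨Classical.arbitrary W1, fun h => absurd hx h⟩
      · rw [Set.mem_iInter] at hx
        push Not at hx
        obtain ⟨i, hi⟩ := hx
        exact ⟨i, fun _ => hi⟩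
    choose f hf using h2
    obtain ⟨g, hg⟩ := inj_W1
    choose Z hZ hZ' using fun n : ℕ => side {x | n ∈ g (f x)}
    have h3 := hinter _ (hint Z hZ) _ h1
    obtain ⟨a, ha⟩ := hne _ h3
    have h4 : ∀ x ∈ (⋂ n, Z n) ∩ (⋂ i, Y i)ᶜ, f x = f a := by
      intro x hx
      apply hg
      ext n
      exact hZ' n x (Set.mem_iInter.1 hx.1 n) a (Set.mem_iInter.1 ha.1 n)
    have h5 := hinter _ h3 _ (hY (f a))
    obtain ⟨x, hx, hx'⟩ := hne _ h5
    rw [← h4 x hx] at hx'
    exact hf x hx.2 hx'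

end Pool.Agent.W872.CC
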