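import Pool.Agent.W872.CC.Defs

/-!
# Basic facts, and extensions of positions
-/

namespace Pool.Agent.W872.CC

open Cardinal Pool.Agent.Helper669.Forcing

section

variable {P : Type} [Preorder P] {K : Type}

/-- closed downwards, and contains every condition below which it is dense -/
structure Reg (φ : Set P) : Prop where
  down : Down φ
  dense : ∀ p, (∀ q ≤ p, ∃ r ≤ q, r ∈ φ) → p ∈ φ

theorem reg_meets (N : Set P) : Reg (meets N) :=
  ⟨down_meets N, fun p h q hq => by
    obtain ⟨r, hr, h'⟩ := h q hq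
    obtain ⟨t, ht, s, hs, hts⟩ := h' r le_rfl
    exact ⟨t, ht.trans hr, s, hs, hts⟩⟩

theorem reg_fex {ι : Sort*} (φ : ι → Set P) : Reg (fex φ) :=
  ⟨down_fex φ, fun p h => mem_fex.2 fun q hq => by
    obtain ⟨r, hr, h'⟩ := h q hq
    obtain ⟨t, ht, i, hi⟩ := mem_fex.1 h' r le_rfl
    exact ⟨t, ht.trans hr, i, hi⟩⟩

theorem mem_fiff {φ ψ : Set P} (hφ : Reg φ) (hψ : Reg ψ) {p : P} :
    p ∈ fiff φ ψ ↔ ∀ q ≤ p, (q ∈ φ ↔ q ∈ ψ) := by
  constructor
  · intro h q hq
    constructor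
    · intro h1
      exact hψ.dense q fun r hr => by
        obtain ⟨t, ht, h2⟩ := mem_fimp.1 h.1 r (hr.trans hq) (hφ.down _ h1 _ hr)
        exact ⟨t, ht, h2⟩
    · intro h1
      exact hφ.dense q fun r hr => by
        obtain ⟨t, ht, h2⟩ := mem_fimp.1 h.2 r (hr.trans hq) (hψ.down _ h1 _ hr)
        exact ⟨t, ht, h2⟩
  · intro h
    exact ⟨mem_fimp.2 fun q hq h1 => ⟨q, le_rfl, (h q hq).1 h1⟩,
      mem_fimp.2 fun q hq h1 => ⟨q, le_rfl, (h q hq).2 h1⟩⟩

theorem mem_SameSet {S T : K → Set P} {p : P} :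
    p ∈ SameSet S T ↔ ∀ a, ∀ q ≤ p, (q ∈ meets (S a) ↔ q ∈ meets (T a)) := by
  constructor
  · intro h a
    exact (mem_fiff (reg_meets _) (reg_meets _)).1 (h a)
  · intro h a
    exact (mem_fiff (reg_meets _) (reg_meets _)).2 (h a)

theorem down_SameSet (S T : K → Set P) : Down (SameSet S T) :=
  fun _ h _ hq => mem_SameSet.2 fun a r hr => mem_SameSet.1 h a r (hr.trans hq)

theorem SameSet.trans {S T U : K → Set P} {p : P} (h : p ∈ SameSet S T) (h' : p ∈ SameSet T U) :
    p ∈ SameSet S U :=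
  mem_SameSet.2 fun a q hq => (mem_SameSet.1 h a q hq).trans (mem_SameSet.1 h' a q hq)

theorem SameSet.symm {S T : K → Set P} {p : P} (h : p ∈ SameSet S T) : p ∈ SameSet T S :=
  mem_SameSet.2 fun a q hq => (mem_SameSet.1 h a q hq).symm

theorem SameSet.refl (S : K → Set P) (p : P) : p ∈ SameSet S S :=
  mem_SameSet.2 fun _ _ _ => Iff.rfl

theorem mem_meets_chk {A : Set K} {a : K} {p : P} : p ∈ meets (chk P A a) ↔ a ∈ A := by
  constructor
  · intro h
    obtain ⟨_, _, s, hs, _⟩ := h p le_rfl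
    exact hs
  · intro h
    exact meets_of_mem (show p ∈ chk P A a from h)

theorem down_SameSeq (l l' : List (K → Set P)) : Down (SameSeq l l') := by
  intro p hp q hq
  exact List.Forall₂.imp (fun S T h => down_SameSet S T p h q hq) hp

theorem SameSeq.symm {l l' : List (K → Set P)} {p : P} (h : p ∈ SameSeq l l') :
    p ∈ SameSeq l' l :=
  List.Forall₂.flip (List.Forall₂.imp (fun _ _ h => SameSet.symm h) h)

theorem SameSeq.trans {l l' l'' : List (K → Set P)} {p : P} (h : p ∈ SameSeq l l')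
    (h' : p ∈ SameSeq l' l'') : p ∈ SameSeq l l'' := by
  have h1 : List.Forall₂ (fun S T => p ∈ SameSet S T) l l' := h
  have h2 : List.Forall₂ (fun S T => p ∈ SameSet S T) l' l'' := h'
  change List.Forall₂ (fun S T => p ∈ SameSet S T) l l''
  clear h h'
  induction h1 generalizing l'' with
  | nil => exact h2
  | cons h _ ih =>
    cases h2 with
    | cons h' h2 => exact .cons (SameSet.trans h h') (ih h2)

theorem Keeps_congr {σ : List (K → Set P) → Set P} {l l' : List (K → Set P)} {p : P}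
    (h : p ∈ SameSeq l l') (hk : p ∈ Keeps σ l) : p ∈ Keeps σ l' :=
  mem_fex.2 fun q hq => by
    obtain ⟨r, hr, l₀, h1, h2⟩ := mem_fex.1 hk q hq
    exact ⟨r, hr, l₀, h1, SameSeq.trans h2 (down_SameSeq _ _ _ h _ (hr.trans hq))⟩

theorem reg_Keeps (σ : List (K → Set P) → Set P) (l : List (K → Set P)) : Reg (Keeps σ l) :=
  reg_fex _

theorem down_fiff (φ ψ : Set P) : Down (fiff φ ψ) := down_fand (down_fimp _ _) (down_fimp _ _)

theorem down_InCur (σ : List (K → Set P) → Set P) (A : ℕ → K → Set P) (n : ℕ) (a : K) :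
    Down (InCur σ A n a) := down_fall fun _ => down_fall fun _ => down_fiff _ _

/-! ### Positions -/

variable (σ : List (K → Set P) → Set P)

/-- the answer to the last of the cuts `l`, which are in the ground model -/
def ans (l : List (Set K)) : Set P := Keeps σ (l.map (chk P))

theorem reg_ans (l : List (Set K)) : Reg (ans σ l) := reg_Keeps _ _

/-- the current set -/
def cur (q : P) : List (Set K) → Set K
  | [] => Set.univ
  | B :: l => {a | a ∈ cur q l ∧ (a ∈ B ↔ q ∈ ans σ (B :: l))}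

/-- the answers are decided -/
def Ok (q : P) : List (Set K) → Prop
  | [] => True
  | B :: l => Ok q l ∧ (q ∈ ans σ (B :: l) ∨ q ∈ fnot (ans σ (B :: l)))

variable {σ}

theorem Ok.mono {q r : P} (hr : r ≤ q) {l : List (Set K)} (h : Ok σ q l) :
    Ok σ r l ∧ cur σ r l = cur σ q l := by
  induction l with
  | nil => exact ⟨trivial, rfl⟩
  | cons B l ih =>
    obtain ⟨h1, h2⟩ := ih h.1
    rcases h.2 with h3 | h3
    · have h4 : r ∈ ans σ (B :: l) := (reg_ans σ _).down _ h3 _ hr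
      refine ⟨⟨h1, Or.inl h4⟩, ?_⟩
      simp only [cur, h2, h3, h4]
    · have h4 : r ∉ ans σ (B :: l) := h3 r hr
      have h5 : q ∉ ans σ (B :: l) := h3 q le_rfl
      refine ⟨⟨h1, Or.inr (down_fnot _ _ h3 _ hr)⟩, ?_⟩
      simp only [cur, h2, h4, h5]

theorem Ok.suffix {q : P} {l l' : List (Set K)} (h : Ok σ q l') (hl : l <:+ l') :
    Ok σ q l ∧ cur σ q l' ⊆ cur σ q l := by
  obtain ⟨t, rfl⟩ := hl
  induction t with
  | nil => exact ⟨h, subset_rfl⟩
  | cons B t ih =>
    obtain ⟨h1, h2⟩ := ih h.1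
    exact ⟨h1, fun a ha => h2 ha.1⟩

theorem Ok.step {q : P} {l : List (Set K)} (h : Ok σ q l) (B : Set K) :
    ∃ r ≤ q, Ok σ r (B :: l) := by
  by_cases h1 : ∃ r ≤ q, r ∈ ans σ (B :: l)
  · obtain ⟨r, hr, h2⟩ := h1
    exact ⟨r, hr, (h.mono hr).1, Or.inl h2⟩
  · push Not at h1
    exact ⟨q, le_rfl, h, Or.inr h1⟩

theorem cur_cons_of_mem {q : P} {l : List (Set K)} {B : Set K} (h : q ∈ ans σ (B :: l)) :
    cur σ q (B :: l) = cur σ q l ∩ B := by
  ext a
  simp [cur, h]

theorem cur_cons_of_not_mem {q : P} {l : List (Set K)} {B : Set K} (h : q ∉ ans σ (B :: l)) :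
    cur σ q (B :: l) = cur σ q l \ B := by
  ext a
  simp [cur, h]

/-- `r` forces that the first `|l|` moves of Cut are the sets in `l` -/
def Match (r : P) (A : ℕ → K → Set P) : List (Set K) → Prop
  | [] => True
  | B :: l => Match r A l ∧ r ∈ SameSet (A l.length) (chk P B)

theorem Match.seq {r : P} {A : ℕ → K → Set P} {l : List (Set K)} (h : Match r A l) :
    r ∈ SameSeq (hist A l.length) (l.map (chk P)) := by
  induction l with
  | nil => exact List.Forall₂.nil
  | cons B l ih => exact List.Forall₂.cons h.2 (ih h.1)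

theorem Match.mono {q r : P} (hr : r ≤ q) {A : ℕ → K → Set P} {l : List (Set K)}
    (h : Match q A l) : Match r A l := by
  induction l with
  | nil => trivial
  | cons B l ih => exact ⟨ih h.1, down_SameSet _ _ _ h.2 _ hr⟩

theorem Match.chk {q : P} (A : ℕ → Set K) (n : ℕ) :
    Match q (fun n => chk P (A n)) (hist A n) := by
  induction n with
  | zero => trivial
  | succ n ih =>
    refine ⟨ih, ?_⟩
    have : (hist A n).length = n := by
      clear ih
      induction n with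
      | zero => rfl
      | succ n ih => simp [hist, ih]
    rw [this]
    exact SameSet.refl _ _

/-- a point which stays in the current sets of the extension is in the current set -/
theorem mem_cur {r : P} {A : ℕ → K → Set P} {a : K} {l : List (Set K)} (hA : Match r A l)
    (ha : r ∈ InCur σ A l.length a) : a ∈ cur σ r l := by
  induction l with
  | nil => trivial
  | cons B l ih =>
    refine ⟨ih hA.1 fun i hi => ha i (hi.trans (Nat.lt_succ_self _)), ?_⟩
    have h1 := (mem_fiff (reg_meets _) (reg_Keeps σ _)).1 (ha l.length (Nat.lt_succ_self _)) r le_rfl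
    have h2 := mem_SameSet.1 hA.2 a r le_rfl
    rw [mem_meets_chk] at h2
    rw [← h2, h1]
    have h3 : r ∈ SameSeq (hist A (l.length + 1)) ((B :: l).map (CC.chk P)) := Match.seq hA
    exact ⟨Keeps_congr h3, Keeps_congr (SameSeq.symm h3)⟩

/-! ### Splitting positions -/

/-- there is no countably complete nonprincipal ultrafilter on `K` -/
def NoUlt (K : Type) : Prop :=
  ∀ F : Set (Set K), (∀ A ∈ F, ∀ B, A ⊆ B → B ∈ F) → (∀ A, A ∈ F ∨ Aᶜ ∈ F) →
    (∀ A : ℕ → Set K, (∀ n, A n ∈ F) → (⋂ n, A n) ∈ F) → ∅ ∉ F → ∃ a, {a} ∈ F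

/-- the sequence which first lists `l` (the head is the last entry) and then `A` -/
def app {α : Type*} : List α → (ℕ → α) → ℕ → α
  | [], A => A
  | B :: l, A => app l (fun n => Nat.casesOn n B A)

theorem hist_cons {α : Type*} (B : α) (A : ℕ → α) (k : ℕ) :
    hist (fun n => Nat.casesOn n B A : ℕ → α) (k + 1) = hist A k ++ [B] := by
  induction k with
  | zero => rfl
  | succ k ih =>
    rw [hist, ih]
    rfl

theorem hist_app {α : Type*} (l : List α) (A : ℕ → α) (k : ℕ) :
    hist (app l A) (l.length + k) = hist A k ++ l := by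
  induction l generalizing A k with
  | nil => simp [app]
  | cons B l ih =>
    have h1 : (B :: l).length + k = l.length + (k + 1) := by simp; ring
    rw [h1, app, ih, hist_cons]
    simp

theorem hist_length {α : Type*} (A : ℕ → α) (n : ℕ) : (hist A n).length = n := by
  induction n with
  | zero => rfl
  | succ n ih => simp [hist, ih]

variable {p₀ : P}

/-- current sets have two elements -/
theorem two_left (hw : ∀ A, p₀ ∈ ChooseWinsLe σ A) {q : P} (hq : q ≤ p₀) {l : List (Set K)}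
    (hl : Ok σ q l) : ∃ a ∈ cur σ q l, ∃ b ∈ cur σ q l, a ≠ b := by
  let A : ℕ → Set K := app l (fun _ => Set.univ)
  have hA : hist A l.length = l := by
    have := hist_app l (fun _ => Set.univ) 0
    simpa [hist] using this
  obtain ⟨r, hr, a, h1⟩ := mem_fex.1 ((hw fun n => chk P (A n)).1 l.length) q hq
  obtain ⟨t, ht, b, h2, h3, h4⟩ := mem_fex.1 h1 r le_rfl
  have hm : Match t (fun n => chk P (A n)) l := by
    have := Match.chk (q := t) A l.length
    rwa [hA] at this
  have h5 := mem_cur (σ := σ) hm h3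
  have h6 := mem_cur (σ := σ) hm h4
  rw [(hl.mono (ht.trans hr)).2] at h5 h6
  exact ⟨a, h5, b, h6, h2⟩

/-- every position has two extensions with disjoint current sets -/
theorem split (hw : ∀ A, p₀ ∈ ChooseWinsLe σ A) (hno : NoUlt K) {q : P} (hq : q ≤ p₀)
    {l : List (Set K)} (hl : Ok σ q l) :
    ∃ q₁ ≤ q, ∃ q₂ ≤ q, ∃ l₁ l₂, l <:+ l₁ ∧ l <:+ l₂ ∧ Ok σ q₁ l₁ ∧ Ok σ q₂ l₂ ∧
      Disjoint (cur σ q₁ l₁) (cur σ q₂ l₂) := by
  by_contra hcon
  push Not at hcon
  let F : Set (Set K) := {A | ∃ q' ≤ q, ∃ l', l <:+ l' ∧ Ok σ q' l' ∧ cur σ q' l' ⊆ A}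
  have hF : ∀ A ∈ F, ∀ B ∈ F, ¬ Disjoint A B := by
    rintro A ⟨q₁, hq₁, l₁, hl₁, ho₁, hA⟩ B ⟨q₂, hq₂, l₂, hl₂, ho₂, hB⟩ hd
    exact hcon q₁ hq₁ q₂ hq₂ l₁ l₂ hl₁ hl₂ ho₁ ho₂ (hd.mono hA hB)
  have hup : ∀ A ∈ F, ∀ B, A ⊆ B → B ∈ F := by
    rintro A ⟨q₁, hq₁, l₁, hl₁, ho₁, hA⟩ B hAB
    exact ⟨q₁, hq₁, l₁, hl₁, ho₁, hA.trans hAB⟩
  have hult : ∀ A, A ∈ F ∨ Aᶜ ∈ F := by
    intro A
    obtain ⟨r, hr, h1⟩ := hl.step A
    by_cases h2 : r ∈ ans σ (A :: l)
    · left
      exact ⟨r, hr, A :: l, List.suffix_cons A l, h1, fun a ha => by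
        rw [cur_cons_of_mem h2] at ha
        exact ha.2⟩
    · right
      exact ⟨r, hr, A :: l, List.suffix_cons A l, h1, fun a ha => by
        rw [cur_cons_of_not_mem h2] at ha
        exact ha.2⟩
  have hint : ∀ A : ℕ → Set K, (∀ n, A n ∈ F) → (⋂ n, A n) ∈ F := by
    intro A hA
    by_contra hnot
    obtain ⟨q', hq', l', hl', ho', hsub⟩ := (hult (⋂ n, A n)).resolve_left hnot
    have key : ∀ k, Ok σ q' (hist A k ++ l') ∧ ∀ i < k, cur σ q' (hist A k ++ l') ⊆ A i := by
      intro k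
      induction k with
      | zero => exact ⟨ho', fun i hi => absurd hi (Nat.not_lt_zero _)⟩
      | succ k ih =>
        have h1 : q' ∈ ans σ (A k :: (hist A k ++ l')) := by
          by_contra h2
          have h3 : ∃ r ≤ q', ∀ s ≤ r, s ∉ ans σ (A k :: (hist A k ++ l')) := by
            by_contra h4
            push Not at h4
            exact h2 ((reg_ans σ _).dense _ h4)
          obtain ⟨r, hr, h4⟩ := h3
          have h5 : (A k)ᶜ ∈ F := by
            refine ⟨r, hr.trans hq', A k :: (hist A k ++ l'), ?_, ⟨(ih.1.mono hr).1, Or.inr h4⟩, ?_⟩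
            · exact (hl'.trans (List.suffix_append _ _)).trans (List.suffix_cons _ _)
            · rw [cur_cons_of_not_mem (h4 r le_rfl)]
              exact fun a ha => ha.2
          exact hF _ (hA k) _ h5 disjoint_compl_right
        refine ⟨⟨ih.1, Or.inl h1⟩, fun i hi => ?_⟩
        change cur σ q' (A k :: (hist A k ++ l')) ⊆ A i
        rw [cur_cons_of_mem h1]
        rcases Nat.lt_succ_iff_lt_or_eq.1 hi with h | rfl
        · exact fun a ha => ih.2 i h ha.1
        · exact fun a ha => ha.2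
    obtain ⟨r, hr, a, ha⟩ := mem_fex.1 ((hw fun n => chk P (app l' A n)).2) q' (hq'.trans hq)
    have h1 : ∀ k, a ∈ cur σ q' (hist A k ++ l') := by
      intro k
      have h2 : Match r (fun n => chk P (app l' A n)) (hist A k ++ l') := by
        have := Match.chk (q := r) (app l' A) (l'.length + k)
        rwa [hist_app] at this
      have h3 := mem_cur (σ := σ) h2 (ha _)
      rwa [((key k).1.mono hr).2] at h3
    have h2 : a ∈ cur σ q' l' := h1 0
    exact hsub h2 (Set.mem_iInter.2 fun n => (key (n + 1)).2 n (Nat.lt_succ_self n) (h1 (n + 1)))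
  have h0 : ∅ ∉ F := by
    rintro ⟨q', hq', l', -, ho', hsub⟩
    obtain ⟨a, ha, -⟩ := two_left hw (hq'.trans hq) ho'
    exact hsub ha
  obtain ⟨c, q', hq', l', -, ho', hsub⟩ := hno F hup hult hint h0
  obtain ⟨a, ha, b, hb, hab⟩ := two_left hw (hq'.trans hq) ho'
  have h1 : a = c := hsub ha
  have h2 : b = c := hsub hb
  exact hab (h1.trans h2.symm)

/-- disjoint extensions of a position below two given conditions -/
theorem split_two (hw : ∀ A, p₀ ∈ ChooseWinsLe σ A) (hno : NoUlt K) {q : P} (hq : q ≤ p₀)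
    {l : List (Set K)} (hl : Ok σ q l) {u v : P} (hu : u ≤ q) (hv : v ≤ q) :
    ∃ u' ≤ u, ∃ v' ≤ v, ∃ l₁ l₂, l <:+ l₁ ∧ l <:+ l₂ ∧ Ok σ u' l₁ ∧ Ok σ v' l₂ ∧
      Disjoint (cur σ u' l₁) (cur σ v' l₂) := by
  obtain ⟨q₁, hq₁, q₂, hq₂, l₁, l₂, h1, h2, ho1, ho2, hd⟩ :=
    split hw hno (hu.trans hq) (hl.mono hu).1
  obtain ⟨v', hv', ho⟩ := (hl.mono hv).1.step (cur σ q₁ l₁)
  by_cases h3 : v' ∈ ans σ (cur σ q₁ l₁ :: l)
  · refine ⟨q₂, hq₂, v', hv', l₂, _, h2, List.suffix_cons _ _, ho2, ho, ?_⟩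
    rw [cur_cons_of_mem h3]
    exact hd.symm.mono_right Set.inter_subset_right
  · refine ⟨q₁, hq₁, v', hv', l₁, _, h1, List.suffix_cons _ _, ho1, ho, ?_⟩
    rw [cur_cons_of_not_mem h3]
    exact Set.disjoint_sdiff_right

end

end Pool.Agent.W872.CC
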